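import Pool.Agent.Helper32.B4.St

/-!
# Project B4, module SM: small driving functions
-/

set_option autoImplicit false

open Metric Set Filter Topology MeasureTheory
open scoped ComplexConjugate Interval

namespace Pool.Agent.Helper70.B4

open Pool.Agent.Helper32.B4 Pool.Agent.Helper32.DX Pool.Agent.Helper64.C3

theorem int_le {g : ℝ → ℝ} {K : ℝ} (h : ∀ u : ℝ, 0 < u → u ≤ 1 → |g u| ≤ K) :
    |∫ u in (0:ℝ)..1, g u| ≤ K := by
  have h1 : ∀ u ∈ Ι (0:ℝ) 1, ‖g u‖ ≤ K := by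
    intro u hu
    rw [uIoc_of_le zero_le_one] at hu
    exact h u hu.1 hu.2
  have h2 := intervalIntegral.norm_integral_le_of_norm_le_const h1
  rw [sub_zero, abs_one, mul_one] at h2
  exact h2

theorem tl_le {g : ℝ → ℝ} {K : ℝ} (hK : 0 ≤ K) (h : ∀ u : ℝ, |g u| ≤ K) (u : ℝ) (h0 : 0 < u)
    (h1 : u ≤ 1) : |tl g u| ≤ K := by
  have h2 : ‖∫ v in u..1, g v‖ ≤ K * |1 - u| :=
    intervalIntegral.norm_integral_le_of_norm_le_const (fun v _ => h v)
  have h3 : |1 - u| ≤ 1 := by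
    rw [abs_le]
    constructor <;> linarith
  calc |tl g u| ≤ K * |1 - u| := h2
    _ ≤ K * 1 := by gcongr
    _ = K := mul_one K

theorem sin_sub (x : ℝ) : |Real.sin x - x| ≤ 2 * |x| ^ 3 := by
  rcases le_or_gt |x| 1 with h | h
  · have h1 := Real.sin_bound h
    have h0 := abs_nonneg x
    have h2 : |x| ^ 5 ≤ |x| ^ 3 := pow_le_pow_of_le_one h0 h (by norm_num)
    have h3 : |x ^ 3 / 6| = |x| ^ 3 / 6 := by
      rw [abs_div, abs_pow, abs_of_pos (by norm_num : (0:ℝ) < 6)]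
    have h4 : Real.sin x - x = (Real.sin x - (x - x ^ 3 / 6)) + -(x ^ 3 / 6) := by ring
    have h6 : 0 ≤ |x| ^ 3 := by positivity
    rw [h4]
    calc |(Real.sin x - (x - x ^ 3 / 6)) + -(x ^ 3 / 6)|
        ≤ |Real.sin x - (x - x ^ 3 / 6)| + |-(x ^ 3 / 6)| := abs_add_le _ _
      _ ≤ |x| ^ 5 / 100 + |x| ^ 3 / 6 := by
          rw [abs_neg, h3]
          exact add_le_add_left h1 _
      _ ≤ 2 * |x| ^ 3 := by nlinarith
  · have h1 : |Real.sin x| ≤ |x| := Real.abs_sin_le_abs (x := x)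
    calc |Real.sin x - x| ≤ |Real.sin x| + |x| := abs_sub _ _
      _ ≤ 2 * |x| := by linarith
      _ ≤ 2 * |x| ^ 3 := by
          have : |x| ≤ |x| ^ 3 := le_self_pow₀ h.le (by norm_num)
          linarith

theorem cos_sub (x : ℝ) : |2 * (1 - Real.cos x) - x ^ 2| ≤ 2 * |x| ^ 4 := by
  rcases le_or_gt |x| 1 with h | h
  · have h1 := Real.cos_bound h
    have h6 : 0 ≤ |x| ^ 4 := by positivity
    have h4 : 2 * (1 - Real.cos x) - x ^ 2 = -(2 * (Real.cos x - (1 - x ^ 2 / 2))) := by ring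
    rw [h4, abs_neg, abs_mul, abs_of_pos (by norm_num : (0:ℝ) < 2)]
    nlinarith
  · have h1 := Real.one_sub_sq_div_two_le_cos (x := x)
    have h2 := Real.cos_le_one x
    have h3 : |x| ^ 2 = x ^ 2 := sq_abs x
    have h5 : |x| ^ 2 ≤ |x| ^ 4 := pow_le_pow_right₀ h.le (by norm_num)
    rw [abs_le]
    constructor <;> nlinarith

theorem hSM : StIA → StQI → StQC → StSM := by
  intro hIA hQI hQC σ hσ hC
  obtain ⟨C0, hC0⟩ := hC
  obtain ⟨C, hCp, hC⟩ : ∃ C : ℝ, 0 ≤ C ∧ ∀ u, |σ u| ≤ C :=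
    ⟨|C0|, abs_nonneg _, fun u => (hC0 u).trans (le_abs_self _)⟩
  refine ⟨C ^ 4 * (1000 + 8 * C ^ 2), by positivity, ?_⟩
  intro ε hε hε1
  have hθm : Measurable (fun u => ε * σ u) := hσ.const_mul ε
  set θ : ℝ → ℝ := fun u => ε * σ u with hθ
  set a : ℝ := ε * C with ha
  have ha0 : 0 ≤ a := mul_nonneg hε.le hCp
  have haC : a ≤ C := by
    calc a = ε * C := rfl
      _ ≤ 1 * C := by gcongr
      _ = C := one_mul C
  have hθa : ∀ u, |θ u| ≤ a := by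
    intro u
    rw [hθ, ha]
    simp only
    rw [abs_mul, abs_of_pos hε]
    exact mul_le_mul_of_nonneg_left (hC u) hε.le
  have hs : ∀ u, |sn θ u| ≤ a := fun u => (Real.abs_sin_le_abs (x := θ u)).trans (hθa u)
  have hθ2 : ∀ u, θ u ^ 2 ≤ a ^ 2 := by
    intro u
    rw [← sq_abs (θ u)]
    exact pow_le_pow_left₀ (abs_nonneg _) (hθa u) 2
  have hn : ∀ u, |nu θ u| ≤ a ^ 2 := by
    intro u
    rw [abs_of_nonneg (nu_nonneg θ u)]
    have h1 := Real.one_sub_sq_div_two_le_cos (x := θ u)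
    have h2 := hθ2 u
    have h3 := sq_nonneg (θ u)
    unfold nu
    linarith
  have hts : ∀ u, 0 < u → u ≤ 1 → |tl (sn θ) u| ≤ a := tl_le ha0 hs
  have htn : ∀ u, 0 < u → u ≤ 1 → |tl (nu θ) u| ≤ a ^ 2 := tl_le (by positivity) hn
  have hu : ∀ u : ℝ, 0 < u → u ≤ 1 → |u| ≤ 1 := by
    intro u h0 h1
    rw [abs_of_pos h0]
    exact h1
  have bN : |fN θ| ≤ a ^ 4 := by
    apply int_le
    intro u _ _
    rw [abs_pow]
    calc |nu θ u| ^ 2 ≤ (a ^ 2) ^ 2 := pow_le_pow_left₀ (abs_nonneg _) (hn u) 2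
      _ = a ^ 4 := by ring
  have bD : |fD θ| ≤ a ^ 2 := int_le (fun u _ _ => hn u)
  have bY : |fY θ| ≤ a := int_le (fun u _ _ => hs u)
  have bZ : |fZ θ| ≤ a ^ 2 := by
    apply int_le
    intro u h0 h1
    rw [abs_mul, abs_pow]
    calc |u| * |sn θ u| ^ 2 ≤ 1 * a ^ 2 :=
          mul_le_mul (hu u h0 h1) (pow_le_pow_left₀ (abs_nonneg _) (hs u) 2) (by positivity)
            zero_le_one
      _ = a ^ 2 := one_mul _
  have bus : ∀ u : ℝ, 0 < u → u ≤ 1 → |u * sn θ u| ≤ a := by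
    intro u h0 h1
    rw [abs_mul]
    calc |u| * |sn θ u| ≤ 1 * a := mul_le_mul (hu u h0 h1) (hs u) (abs_nonneg _) zero_le_one
      _ = a := one_mul _
  have busn : ∀ u : ℝ, 0 < u → u ≤ 1 → |u * sn θ u * nu θ u| ≤ a ^ 3 := by
    intro u h0 h1
    rw [abs_mul]
    calc |u * sn θ u| * |nu θ u| ≤ a * a ^ 2 :=
          mul_le_mul (bus u h0 h1) (hn u) (abs_nonneg _) ha0
      _ = a ^ 3 := by ring
  have bJ : |fJ θ| ≤ a ^ 3 := int_le busn
  have bI : |fI θ| ≤ a ^ 4 := by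
    apply int_le
    intro u h0 h1
    rw [abs_mul]
    calc |u * sn θ u * nu θ u| * |tl (sn θ) u| ≤ a ^ 3 * a :=
          mul_le_mul (busn u h0 h1) (hts u h0 h1) (abs_nonneg _) (by positivity)
      _ = a ^ 4 := by ring
  have bA : |fA θ| ≤ a ^ 4 := by
    apply int_le
    intro u h0 h1
    have e : u ^ 2 * sn θ u ^ 2 * nu θ u = (u * sn θ u) * (u * sn θ u * nu θ u) := by ring
    rw [e, abs_mul]
    calc |u * sn θ u| * |u * sn θ u * nu θ u| ≤ a * a ^ 3 :=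
          mul_le_mul (bus u h0 h1) (busn u h0 h1) (abs_nonneg _) ha0
      _ = a ^ 4 := by ring
  have bW : |fW θ| ≤ a ^ 4 := by
    apply int_le
    intro u h0 h1
    have e : u * sn θ u ^ 2 * tl (nu θ) u = (u * sn θ u) * (sn θ u * tl (nu θ) u) := by ring
    rw [e, abs_mul, abs_mul (sn θ u)]
    calc |u * sn θ u| * (|sn θ u| * |tl (nu θ) u|) ≤ a * (a * a ^ 2) :=
          mul_le_mul (bus u h0 h1) (mul_le_mul (hs u) (htn u h0 h1) (abs_nonneg _) ha0)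
            (by positivity) ha0
      _ = a ^ 4 := by ring
  obtain ⟨iN, iZ, iT, iV, -⟩ := hIA θ hθm
  have hsm : Measurable (sn θ) := meas_sn hθm
  have hQ := hQI (sn θ) hsm ⟨1, fun u => abs_sn_le θ u⟩
  have hid : FF θ - Qf (sn θ) = 10 * fN θ - 24 * fD θ ^ 2 + 8 * fD θ ^ 3 + 16 * fZ θ * fD θ
      - 24 * fD θ * fY θ ^ 2 + 16 * fY θ * fJ θ + 8 * fI θ - 8 * fA θ + 8 * fW θ := by
    rw [hQ]
    have e1 : (∫ u in (0:ℝ)..1, sn θ u ^ 2) = fS θ := rfl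
    have e2 : (∫ u in (0:ℝ)..1, (24 * u - 16 * u ^ 2) * sn θ u ^ 2) = fq θ := rfl
    have e3 : (∫ u in (0:ℝ)..1, sn θ u) = fY θ := rfl
    have e4 : (∫ u in (0:ℝ)..1, u * sn θ u) = fL θ := rfl
    have e5 : (∫ u in (0:ℝ)..1, u * sn θ u * tl (sn θ) u) = fK θ := rfl
    rw [e1, e2, e3, e4, e5]
    unfold FF
    rw [iT, iV]
    linear_combination 10 * iN
  have a4 : a ^ 4 = ε ^ 4 * C ^ 4 := by rw [ha]; ring
  have a6 : a ^ 6 ≤ ε ^ 4 * (C ^ 4 * C ^ 2) := by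
    calc a ^ 6 = a ^ 4 * a ^ 2 := by ring
      _ ≤ a ^ 4 * C ^ 2 := by gcongr
      _ = ε ^ 4 * (C ^ 4 * C ^ 2) := by rw [a4]; ring
  have t1 : |FF θ - Qf (sn θ)| ≤ 114 * a ^ 4 + 8 * a ^ 6 := by
    rw [hid]
    have u1 := abs_le.1 bN
    have u2 : fD θ ^ 2 ≤ a ^ 4 := by
      calc fD θ ^ 2 = |fD θ| ^ 2 := (sq_abs _).symm
        _ ≤ (a ^ 2) ^ 2 := pow_le_pow_left₀ (abs_nonneg _) bD 2
        _ = a ^ 4 := by ring
    have u2' := sq_nonneg (fD θ)
    have u3 : |fD θ ^ 3| ≤ a ^ 6 := by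
      rw [abs_pow]
      calc |fD θ| ^ 3 ≤ (a ^ 2) ^ 3 := pow_le_pow_left₀ (abs_nonneg _) bD 3
        _ = a ^ 6 := by ring
    have u3' := abs_le.1 u3
    have u4 : |fZ θ * fD θ| ≤ a ^ 4 := by
      rw [abs_mul]
      calc |fZ θ| * |fD θ| ≤ a ^ 2 * a ^ 2 := mul_le_mul bZ bD (abs_nonneg _) (by positivity)
        _ = a ^ 4 := by ring
    have u4' := abs_le.1 u4
    have u5 : |fD θ * fY θ ^ 2| ≤ a ^ 4 := by
      rw [abs_mul, abs_pow]
      calc |fD θ| * |fY θ| ^ 2 ≤ a ^ 2 * a ^ 2 :=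
            mul_le_mul bD (pow_le_pow_left₀ (abs_nonneg _) bY 2) (by positivity) (by positivity)
        _ = a ^ 4 := by ring
    have u5' := abs_le.1 u5
    have u6 : |fY θ * fJ θ| ≤ a ^ 4 := by
      rw [abs_mul]
      calc |fY θ| * |fJ θ| ≤ a * a ^ 3 := mul_le_mul bY bJ (abs_nonneg _) ha0
        _ = a ^ 4 := by ring
    have u6' := abs_le.1 u6
    have u7 := abs_le.1 bI
    have u8 := abs_le.1 bA
    have u9 := abs_le.1 bW
    rw [abs_le]
    constructor <;> nlinarith [u1.1, u1.2, u3'.1, u3'.2, u4'.1, u4'.2, u5'.1, u5'.2, u6'.1, u6'.2,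
      u7.1, u7.2, u8.1, u8.2, u9.1, u9.2]
  have hθb : ∃ C : ℝ, ∀ u, |θ u| ≤ C := ⟨a, hθa⟩
  have t2 := hQC (sn θ) θ hsm ⟨1, fun u => abs_sn_le θ u⟩ hθm hθb
  have v1 : Real.sqrt (∫ u in (0:ℝ)..1, (sn θ u - θ u) ^ 2) ≤ 2 * a ^ 3 := by
    apply Real.sqrt_le_iff.2
    refine ⟨by positivity, ?_⟩
    apply (le_abs_self _).trans
    apply int_le
    intro u _ _
    rw [abs_pow]
    apply pow_le_pow_left₀ (abs_nonneg _)
    calc |sn θ u - θ u| ≤ 2 * |θ u| ^ 3 := sin_sub (θ u)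
      _ ≤ 2 * a ^ 3 := by
          have := pow_le_pow_left₀ (abs_nonneg _) (hθa u) 3
          linarith
  have v2 : Real.sqrt (∫ u in (0:ℝ)..1, sn θ u ^ 2) ≤ a := by
    apply Real.sqrt_le_iff.2
    refine ⟨ha0, ?_⟩
    apply (le_abs_self _).trans
    apply int_le
    intro u _ _
    rw [abs_pow]
    exact pow_le_pow_left₀ (abs_nonneg _) (hs u) 2
  have v3 : Real.sqrt (∫ u in (0:ℝ)..1, θ u ^ 2) ≤ a := by
    apply Real.sqrt_le_iff.2
    refine ⟨ha0, ?_⟩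
    apply (le_abs_self _).trans
    apply int_le
    intro u _ _
    rw [abs_pow]
    exact pow_le_pow_left₀ (abs_nonneg _) (hθa u) 2
  have t3 : |Qf (sn θ) - Qf θ| ≤ 400 * a ^ 4 := by
    have p1 := Real.sqrt_nonneg (∫ u in (0:ℝ)..1, (sn θ u - θ u) ^ 2)
    have p2 := Real.sqrt_nonneg (∫ u in (0:ℝ)..1, sn θ u ^ 2)
    have p3 := Real.sqrt_nonneg (∫ u in (0:ℝ)..1, θ u ^ 2)
    calc |Qf (sn θ) - Qf θ| ≤ _ := t2
      _ ≤ 100 * (2 * a ^ 3) * (a + a) := by gcongr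
      _ = 400 * a ^ 4 := by ring
  have t4 : Qf θ = ε ^ 2 * Qf σ := by
    have g1 : (∫ u in (0:ℝ)..1, (10 - 24 * u + 16 * u ^ 2) * θ u ^ 2) =
        ε ^ 2 * ∫ u in (0:ℝ)..1, (10 - 24 * u + 16 * u ^ 2) * σ u ^ 2 := by
      rw [← intervalIntegral.integral_const_mul]
      apply intervalIntegral.integral_congr
      intro u _
      simp only [hθ]
      ring
    have g2 : (∫ u in (0:ℝ)..1, θ u * ∫ v in u..1, (6 - 3 * u - 2 * v) * θ v) =
        ε ^ 2 * ∫ u in (0:ℝ)..1, σ u * ∫ v in u..1, (6 - 3 * u - 2 * v) * σ v := by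
      rw [← intervalIntegral.integral_const_mul]
      apply intervalIntegral.integral_congr
      intro u _
      have g3 : (∫ v in u..1, (6 - 3 * u - 2 * v) * θ v) =
          ε * ∫ v in u..1, (6 - 3 * u - 2 * v) * σ v := by
        rw [← intervalIntegral.integral_const_mul]
        apply intervalIntegral.integral_congr
        intro v _
        simp only [hθ]
        ring
      show θ u * (∫ v in u..1, (6 - 3 * u - 2 * v) * θ v) =
        ε ^ 2 * (σ u * ∫ v in u..1, (6 - 3 * u - 2 * v) * σ v)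
      rw [g3]
      show ε * σ u * (ε * ∫ v in u..1, (6 - 3 * u - 2 * v) * σ v) = _
      ring
    unfold Qf
    rw [g1, g2]
    ring
  constructor
  · have e : FF θ - ε ^ 2 * Qf σ = (FF θ - Qf (sn θ)) + (Qf (sn θ) - Qf θ) := by
      rw [t4]
      ring
    rw [e]
    calc |(FF θ - Qf (sn θ)) + (Qf (sn θ) - Qf θ)| ≤ |FF θ - Qf (sn θ)| + |Qf (sn θ) - Qf θ| :=
          abs_add_le _ _
      _ ≤ (114 * a ^ 4 + 8 * a ^ 6) + 400 * a ^ 4 := add_le_add t1 t3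
      _ ≤ C ^ 4 * (1000 + 8 * C ^ 2) * ε ^ 4 := by
          have h1 : 0 ≤ ε ^ 4 * C ^ 4 := by positivity
          rw [a4]
          nlinarith
  · have i1 : IntervalIntegrable (nu θ) volume 0 1 :=
      ii_of_bdd (C := a ^ 2) (meas_nu hθm).aestronglyMeasurable (fun u _ => hn u)
    have i2 : IntervalIntegrable (fun u => θ u ^ 2) volume 0 1 :=
      ii_of_bdd (C := a ^ 2) (hθm.pow_const 2).aestronglyMeasurable (fun u _ => by
        rw [Real.norm_eq_abs, abs_of_nonneg (sq_nonneg _)]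
        exact hθ2 u)
    have e1 : ε ^ 2 * (∫ u in (0:ℝ)..1, σ u ^ 2) = ∫ u in (0:ℝ)..1, θ u ^ 2 := by
      rw [← intervalIntegral.integral_const_mul]
      apply intervalIntegral.integral_congr
      intro u _
      simp only [hθ]
      ring
    have e2 : 2 * fD θ - ε ^ 2 * (∫ u in (0:ℝ)..1, σ u ^ 2) =
        ∫ u in (0:ℝ)..1, (2 * nu θ u - θ u ^ 2) := by
      rw [e1, intervalIntegral.integral_sub (i1.const_mul 2) i2,
        intervalIntegral.integral_const_mul]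
      rfl
    rw [e2]
    have h1 : |∫ u in (0:ℝ)..1, (2 * nu θ u - θ u ^ 2)| ≤ 2 * a ^ 4 := by
      apply int_le
      intro u _ _
      calc |2 * nu θ u - θ u ^ 2| ≤ 2 * |θ u| ^ 4 := cos_sub (θ u)
        _ ≤ 2 * a ^ 4 := by
            have := pow_le_pow_left₀ (abs_nonneg _) (hθa u) 4
            linarith
    have h2 : 0 ≤ ε ^ 4 * C ^ 4 := by positivity
    have h3 : 0 ≤ ε ^ 4 * C ^ 4 * C ^ 2 := by positivity
    rw [a4] at h1
    nlinarith

end Pool.Agent.Helper70.B4
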